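import Pool.Agent.W999.DL.Stms

/-! # Project DL: choice of the parameters (DL-NUM) -/

namespace Pool.Agent.W60.DL

open Pool.Agent.W999.DL

private lemma core (f : ℕ → ℕ) (hf : Bound f) (n J : ℕ) (hJ : 1 ≤ J)
    (hn : (2 ^ (J ^ 2)) ^ 100 ≤ n) :
    (f n : ℝ) ≤ 30 * ((n : ℝ) * Real.sqrt n) / Real.sqrt (2 ^ J : ℝ) := by
  obtain ⟨u, hu⟩ : ∃ u : ℕ, u = 2 ^ (J ^ 2) := ⟨_, rfl⟩
  obtain ⟨r, hr⟩ : ∃ r : ℕ, r = 2 ^ J := ⟨_, rfl⟩
  rw [← hu] at hn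
  have hJJ : J ≤ J ^ 2 := by nlinarith
  have hru : r ≤ u := by rw [hr, hu]; exact Nat.pow_le_pow_right (by norm_num) hJJ
  have hr2 : 2 ≤ r := by
    rw [hr]; calc 2 = 2 ^ 1 := by norm_num
      _ ≤ 2 ^ J := Nat.pow_le_pow_right (by norm_num) hJ
  have hu2 : 2 ≤ u := hr2.trans hru
  obtain ⟨Q, hQp, hQ1, hQ2⟩ := Nat.exists_prime_lt_and_le_two_mul (r ^ 6) (by positivity)
  obtain ⟨q, hq⟩ : ∃ q : ℕ, q = Q ^ (2 * J) := ⟨_, rfl⟩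
  have hq1 : q ≤ 2 ^ (12 * J ^ 2 + 2 * J) := by
    have : Q ≤ 2 ^ (6 * J + 1) := by
      refine hQ2.trans ?_
      rw [hr, ← pow_mul, pow_succ]
      rw [show J * 6 = 6 * J by ring]; omega
    calc q = Q ^ (2 * J) := hq
      _ ≤ (2 ^ (6 * J + 1)) ^ (2 * J) := Nat.pow_le_pow_left this _
      _ = 2 ^ (12 * J ^ 2 + 2 * J) := by rw [← pow_mul]; congr 1; ring
  have hqpos : 0 < q := by rw [hq]; exact pow_pos hQp.pos _
  have hT : tT J Q = 2 * r * q * q := by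
    simp only [tT, nN, ← hq, hr]; ring
  have hE : eE J Q = 4 * r * q := by
    simp only [eE, ← hq, hr]; ring
  obtain ⟨T, hTT⟩ : ∃ T : ℕ, T = tT J Q := ⟨_, rfl⟩
  obtain ⟨E, hEE⟩ : ∃ E : ℕ, E = eE J Q := ⟨_, rfl⟩
  have hE2 : E ^ 2 = 8 * r * T := by rw [hEE, hTT, hT, hE]; ring
  have hTu : T ≤ u ^ 30 := by
    rw [hTT, hT, hu, hr]
    calc 2 * 2 ^ J * q * q ≤ 2 * 2 ^ J * 2 ^ (12 * J ^ 2 + 2 * J) * 2 ^ (12 * J ^ 2 + 2 * J) := by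
          gcongr
      _ = 2 ^ (24 * J ^ 2 + 5 * J + 1) := by ring
      _ ≤ (2 ^ J ^ 2) ^ 30 := by
          rw [← pow_mul]; apply Nat.pow_le_pow_right (by norm_num); nlinarith
  have hTpos : 0 < T := by rw [hTT, hT]; positivity
  have hupos : 0 < u := by omega
  -- the size of n / T
  have h1 : E ^ 2 ≤ n / T := by
    rw [Nat.le_div_iff_mul_le hTpos, hE2]
    calc 8 * r * T * T ≤ (u ^ 3) * u * u ^ 30 * u ^ 30 := by
          gcongr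
          calc 8 = 2 ^ 3 := by norm_num
            _ ≤ u ^ 3 := Nat.pow_le_pow_left hu2 3
      _ = u ^ 64 := by ring
      _ ≤ u ^ 100 := Nat.pow_le_pow_right hupos (by norm_num)
      _ ≤ n := hn
  obtain ⟨s, hs⟩ : ∃ s : ℕ, s = Nat.sqrt (n / T) := ⟨_, rfl⟩
  have hEs : E ≤ s := by rw [hs]; exact Nat.le_sqrt'.2 h1
  have hs1 : 1 ≤ s := by
    have : 0 < E := by rw [hEE, hE]; positivity
    omega
  have hs2 : T * s ^ 2 ≤ n := by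
    have : s ^ 2 ≤ n / T := by rw [hs]; exact Nat.sqrt_le' _
    calc T * s ^ 2 ≤ T * (n / T) := by gcongr
      _ ≤ n := Nat.mul_div_le _ _
  have hs3 : n < T * (s + 1) ^ 2 := by
    have : n / T < (s + 1) ^ 2 := by rw [hs]; exact Nat.lt_succ_sqrt' _
    rw [Nat.div_lt_iff_lt_mul hTpos] at this
    rwa [mul_comm]
  obtain ⟨P, hPp, hP1, hP2⟩ := Nat.exists_prime_lt_and_le_two_mul (s + 1) (by omega)
  have hEP : (E * P) ^ 2 ≤ 128 * r * n := by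
    have h4 : P ≤ 4 * s := by omega
    calc (E * P) ^ 2 = E ^ 2 * P ^ 2 := by ring
      _ ≤ (8 * r * T) * (4 * s) ^ 2 := by rw [hE2]; gcongr
      _ = 128 * r * (T * s ^ 2) := by ring
      _ ≤ 128 * r * n := by gcongr
  -- B
  obtain ⟨b, hb⟩ : ∃ b : ℕ, b = Nat.sqrt (2 * n / r) := ⟨_, rfl⟩
  have hrpos : 0 < r := by omega
  have hrn : r * 2 ≤ n := by
    calc r * 2 ≤ u * u := by gcongr
      _ = u ^ 2 := by ring
      _ ≤ u ^ 100 := Nat.pow_le_pow_right hupos (by norm_num)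
      _ ≤ n := hn
  have hb1 : 1 ≤ b := by
    rw [hb]; apply Nat.le_sqrt'.2
    rw [Nat.le_div_iff_mul_le hrpos]; omega
  have hb2 : r * b ^ 2 ≤ 2 * n := by
    have : b ^ 2 ≤ 2 * n / r := by rw [hb]; exact Nat.sqrt_le' _
    calc r * b ^ 2 ≤ r * (2 * n / r) := by gcongr
      _ ≤ 2 * n := Nat.mul_div_le _ _
  have hb3 : 2 * n < r * (b + 1) ^ 2 := by
    have : 2 * n / r < (b + 1) ^ 2 := by rw [hb]; exact Nat.lt_succ_sqrt' _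
    rw [Nat.div_lt_iff_lt_mul hrpos] at this
    linarith [this, mul_comm r ((b + 1) ^ 2)]
  have hTn : T ≤ n := by
    calc T ≤ u ^ 30 := hTu
      _ ≤ u ^ 100 := Nat.pow_le_pow_right hupos (by norm_num)
      _ ≤ n := hn
  have h2J : 2 * J ≤ r := by
    rw [hr]
    obtain ⟨k, rfl⟩ : ∃ k, J = k + 1 := ⟨J - 1, by omega⟩
    rw [pow_succ]
    have : k + 1 ≤ 2 ^ k := Nat.lt_two_pow_self
    omega
  have hB : (n + tT J Q) * (2 * J * 2 ^ (4 * J)) ≤ Q * (b + 1) ^ 2 := by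
    rw [← hTT]
    have e1 : (2 : ℕ) ^ (4 * J) = r ^ 4 := by rw [hr, ← pow_mul]; congr 1; ring
    rw [e1]
    calc (n + T) * (2 * J * r ^ 4) ≤ (2 * n) * (r * r ^ 4) := by gcongr; omega
      _ ≤ (r * (b + 1) ^ 2) * (r * r ^ 4) := by gcongr
      _ = r ^ 6 * (b + 1) ^ 2 := by ring
      _ ≤ Q * (b + 1) ^ 2 := by gcongr
  have hmain := hf J Q P (b + 1) n hJ hQp ?_ ?_ hPp ?_ ?_ hB
  rotate_left
  · calc 2 ^ (2 * J) = r ^ 2 := by rw [hr, ← pow_mul]; congr 1; ring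
      _ ≤ r ^ 6 := Nat.pow_le_pow_right hrpos (by norm_num)
      _ ≤ Q := hQ1.le
  · rw [← hr]
    have : r + 1 ≤ r ^ 6 := by
      calc r + 1 ≤ r * 2 := by omega
        _ ≤ r * r := by gcongr
        _ = r ^ 2 := by ring
        _ ≤ r ^ 6 := Nat.pow_le_pow_right hrpos (by norm_num)
    omega
  · rw [← hEE]; omega
  · rw [← hTT]
    calc n < T * (s + 1) ^ 2 := hs3
      _ ≤ T * P ^ 2 := by gcongr
  rw [← hEE, ← hTT] at hmain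
  -- passage to real numbers
  obtain ⟨ρ, hρ⟩ : ∃ ρ : ℝ, ρ = Real.sqrt (2 ^ J : ℝ) := ⟨_, rfl⟩
  obtain ⟨x, hx⟩ : ∃ x : ℝ, x = Real.sqrt n := ⟨_, rfl⟩
  have hρ2 : ρ ^ 2 = r := by
    rw [hρ, Real.sq_sqrt (by positivity), hr]; push_cast; ring
  have hx2 : x ^ 2 = n := by rw [hx, Real.sq_sqrt (by positivity)]
  have hρpos : 0 < ρ := by rw [hρ]; positivity
  have hnpos : 0 < n := by omega
  have hxpos : 0 < x := by rw [hx]; positivity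
  rw [← hρ, ← hx]
  have t1 : ((E * P : ℕ) : ℝ) ≤ 12 * (ρ * x) := by
    apply le_of_sq_le_sq _ (by positivity)
    have : (((E * P) ^ 2 : ℕ) : ℝ) ≤ ((128 * r * n : ℕ) : ℝ) := by exact_mod_cast hEP
    calc ((E * P : ℕ) : ℝ) ^ 2 = (((E * P) ^ 2 : ℕ) : ℝ) := by push_cast; ring
      _ ≤ ((128 * r * n : ℕ) : ℝ) := this
      _ = 128 * (ρ ^ 2 * x ^ 2) := by rw [hρ2, hx2]; push_cast; ring
      _ ≤ (12 * (ρ * x)) ^ 2 := by nlinarith [sq_nonneg (ρ * x)]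
  have t1' : ((n / 2 ^ (J + 1) + 1 : ℕ) : ℝ) ≤ n / ρ ^ 2 := by
    rw [hρ2]
    have a1 : n / 2 ^ (J + 1) + 1 ≤ n / r := by
      rw [pow_succ, ← hr, ← Nat.div_div_eq_div_mul]
      have : 2 ≤ n / r := by rw [Nat.le_div_iff_mul_le hrpos]; omega
      omega
    calc ((n / 2 ^ (J + 1) + 1 : ℕ) : ℝ) ≤ ((n / r : ℕ) : ℝ) := by exact_mod_cast a1
      _ ≤ (n : ℝ) / r := Nat.cast_div_le
  have t2 : ((r * T : ℕ) : ℝ) * ρ ≤ x := by
    apply le_of_sq_le_sq _ (by positivity)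
    have : r ^ 3 * T ^ 2 ≤ n := by
      calc r ^ 3 * T ^ 2 ≤ u ^ 3 * (u ^ 30) ^ 2 := by gcongr
        _ = u ^ 63 := by ring
        _ ≤ u ^ 100 := Nat.pow_le_pow_right hupos (by norm_num)
        _ ≤ n := hn
    have h' : ((r : ℝ) ^ 3 * (T : ℝ) ^ 2) ≤ n := by exact_mod_cast this
    calc (((r * T : ℕ) : ℝ) * ρ) ^ 2 = ((r : ℝ) * T) ^ 2 * ρ ^ 2 := by push_cast; ring
      _ = (r : ℝ) ^ 3 * (T : ℝ) ^ 2 := by rw [hρ2]; ring
      _ ≤ n := h'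
      _ = x ^ 2 := hx2.symm
  have t3 : ρ * ((b + 1 : ℕ) : ℝ) ≤ 3 * x := by
    apply le_of_sq_le_sq _ (by positivity)
    have : r * (b + 1) ^ 2 ≤ 8 * n := by
      calc r * (b + 1) ^ 2 ≤ r * (2 * b) ^ 2 := by gcongr; omega
        _ = 4 * (r * b ^ 2) := by ring
        _ ≤ 4 * (2 * n) := by gcongr
        _ = 8 * n := by ring
    have h' : ((r : ℝ) * ((b + 1 : ℕ) : ℝ) ^ 2) ≤ 8 * n := by exact_mod_cast this
    calc (ρ * ((b + 1 : ℕ) : ℝ)) ^ 2 = ρ ^ 2 * ((b + 1 : ℕ) : ℝ) ^ 2 := by ring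
      _ ≤ 8 * (n : ℝ) := by rw [hρ2]; exact h'
      _ = 8 * x ^ 2 := by rw [hx2]
      _ ≤ (3 * x) ^ 2 := by nlinarith [sq_nonneg x]
  have hfin : (f n : ℝ) ≤ ((E * P : ℕ) : ℝ) * ((n / 2 ^ (J + 1) + 1 : ℕ) : ℝ) +
      (2 * n) * 3 * ((r * T : ℕ) : ℝ) + 2 * ((b + 1 : ℕ) : ℝ) * (2 * n) := by
    have h5 : f n ≤ E * P * (n / 2 ^ (J + 1) + 1) + (2 * n) * 3 * (r * T) +
        2 * (b + 1) * (2 * n) := by
      refine hmain.trans ?_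
      have e3 : (2 : ℕ) ^ (J + 1) + 1 ≤ 3 * r := by rw [pow_succ, ← hr]; omega
      have e4 : (n + 1) * (2 ^ (J + 1) + 1) * T ≤ 2 * n * 3 * (r * T) := by
        calc (n + 1) * (2 ^ (J + 1) + 1) * T ≤ (2 * n) * (3 * r) * T := by gcongr; omega
          _ = 2 * n * 3 * (r * T) := by ring
      have e5 : 2 * (b + 1) * (n + 1) ≤ 2 * (b + 1) * (2 * n) := by gcongr; omega
      omega
    exact_mod_cast h5
  have g1 : ((E * P : ℕ) : ℝ) * ((n / 2 ^ (J + 1) + 1 : ℕ) : ℝ) ≤ 12 * (n * x) / ρ := by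
    calc ((E * P : ℕ) : ℝ) * ((n / 2 ^ (J + 1) + 1 : ℕ) : ℝ) ≤ (12 * (ρ * x)) * (n / ρ ^ 2) := by
          gcongr
      _ = 12 * (n * x) / ρ := by field_simp
  have g2 : (2 * (n : ℝ)) * 3 * ((r * T : ℕ) : ℝ) ≤ 6 * (n * x) / ρ := by
    rw [le_div_iff₀ hρpos]
    calc (2 * (n : ℝ)) * 3 * ((r * T : ℕ) : ℝ) * ρ = 6 * n * (((r * T : ℕ) : ℝ) * ρ) := by ring
      _ ≤ 6 * n * x := by gcongr
      _ = 6 * (n * x) := by ring
  have g3 : 2 * ((b + 1 : ℕ) : ℝ) * (2 * n) ≤ 12 * (n * x) / ρ := by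
    rw [le_div_iff₀ hρpos]
    calc 2 * ((b + 1 : ℕ) : ℝ) * (2 * n) * ρ = 4 * n * (ρ * ((b + 1 : ℕ) : ℝ)) := by ring
      _ ≤ 4 * n * (3 * x) := by gcongr
      _ = 12 * (n * x) := by ring
  calc (f n : ℝ) ≤ _ := hfin
    _ ≤ 12 * (n * x) / ρ + 6 * (n * x) / ρ + 12 * (n * x) / ρ := by linarith
    _ = 30 * (n * x) / ρ := by ring

private lemma large (f : ℕ → ℕ) (hf : Bound f) (n : ℕ) (hn : 2 ^ 100 ≤ n) :
    (f n : ℝ) ≤ 60 * ((n : ℝ) * Real.sqrt n) *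
      (2 : ℝ) ^ (-(Real.sqrt (Real.logb 2 n) / 20)) := by
  obtain ⟨L, hL⟩ : ∃ L : ℝ, L = Real.logb 2 n := ⟨_, rfl⟩
  have hn1 : (1 : ℝ) ≤ n := by
    have : 1 ≤ n := le_trans (Nat.one_le_two_pow) hn
    exact_mod_cast this
  have hL100 : 100 ≤ L := by
    rw [hL, Real.le_logb_iff_rpow_le (by norm_num) (by linarith)]
    have : ((2 ^ 100 : ℕ) : ℝ) ≤ n := by exact_mod_cast hn
    calc (2 : ℝ) ^ (100 : ℝ) = (2 : ℝ) ^ ((100 : ℕ) : ℝ) := by norm_num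
      _ = ((2 ^ 100 : ℕ) : ℝ) := by rw [Real.rpow_natCast]; norm_num
      _ ≤ n := this
  have hs10 : 10 ≤ Real.sqrt L := by
    rw [show (10 : ℝ) = Real.sqrt 100 by
      rw [show (100 : ℝ) = 10 ^ 2 by norm_num, Real.sqrt_sq (by norm_num)]]
    exact Real.sqrt_le_sqrt hL100
  obtain ⟨J, hJ⟩ : ∃ J : ℕ, J = ⌊Real.sqrt L / 10⌋₊ := ⟨_, rfl⟩
  have hJ1 : 1 ≤ J := by
    rw [hJ]; apply Nat.le_floor; push_cast; linarith
  have hJ2 : (J : ℝ) ≤ Real.sqrt L / 10 := by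
    rw [hJ]; exact Nat.floor_le (by positivity)
  have hJ3 : Real.sqrt L / 10 < J + 1 := by
    rw [hJ]; exact Nat.lt_floor_add_one _
  have hJ4 : (J : ℝ) ^ 2 * 100 ≤ L := by
    have h := Real.sq_sqrt (show (0 : ℝ) ≤ L by linarith)
    have : (J : ℝ) * 10 ≤ Real.sqrt L := by linarith
    have h0 : (0 : ℝ) ≤ J := by positivity
    nlinarith
  have hpow : (2 ^ (J ^ 2)) ^ 100 ≤ n := by
    have h1 : (2 : ℝ) ^ ((J : ℝ) ^ 2 * 100) ≤ n := by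
      rw [← Real.le_logb_iff_rpow_le (by norm_num) (by linarith)]
      rw [← hL]; exact hJ4
    have h2 : (2 : ℝ) ^ ((J : ℝ) ^ 2 * 100) = (((2 ^ (J ^ 2)) ^ 100 : ℕ) : ℝ) := by
      rw [← pow_mul]; push_cast
      rw [← Real.rpow_natCast 2 (J ^ 2 * 100)]; push_cast; rfl
    rw [h2] at h1
    exact_mod_cast h1
  have h := core f hf n J hJ1 hpow
  rw [← hL]
  refine h.trans ?_
  have hρ : Real.sqrt (2 ^ J : ℝ) = (2 : ℝ) ^ ((J : ℝ) / 2) := by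
    rw [Real.sqrt_eq_rpow, ← Real.rpow_natCast, ← Real.rpow_mul (by norm_num)]
    congr 1; ring
  rw [hρ, div_eq_mul_inv, ← Real.rpow_neg (by norm_num)]
  have h6 : (2 : ℝ) ^ (-((J : ℝ) / 2)) ≤ 2 * (2 : ℝ) ^ (-(Real.sqrt L / 20)) := by
    have : (2 : ℝ) * (2 : ℝ) ^ (-(Real.sqrt L / 20)) = (2 : ℝ) ^ (1 + -(Real.sqrt L / 20)) := by
      rw [Real.rpow_add (by norm_num), Real.rpow_one]
    rw [this]
    apply Real.rpow_le_rpow_of_exponent_le (by norm_num)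
    linarith
  have hnn : (0 : ℝ) ≤ 30 * ((n : ℝ) * Real.sqrt n) := by positivity
  calc 30 * ((n : ℝ) * Real.sqrt n) * (2 : ℝ) ^ (-((J : ℝ) / 2))
      ≤ 30 * ((n : ℝ) * Real.sqrt n) * (2 * (2 : ℝ) ^ (-(Real.sqrt L / 20))) := by gcongr
    _ = 60 * ((n : ℝ) * Real.sqrt n) * (2 : ℝ) ^ (-(Real.sqrt L / 20)) := by ring

/-- DL-NUM: choice of the parameters. -/
theorem num : S_NUM := by
  intro f hf
  obtain ⟨g, hg⟩ : ∃ g : ℕ → ℝ, g = fun n : ℕ => ((n : ℝ) * Real.sqrt n) *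
      (2 : ℝ) ^ (-(Real.sqrt (Real.logb 2 n) / 20)) := ⟨_, rfl⟩
  have hgpos : ∀ n, 1 ≤ n → 0 < g n := by
    intro n hn
    rw [hg]
    have : (0 : ℝ) < n := by exact_mod_cast hn
    positivity
  have hg0 : ∀ n, 0 ≤ g n := by intro n; rw [hg]; positivity
  -- small n
  obtain ⟨C₀, hC₀⟩ : ∃ C₀ : ℝ, ∀ n, 1 ≤ n → n < 2 ^ 100 → (f n : ℝ) ≤ C₀ * g n := by
    have hbdd : BddAbove ((fun n : ℕ => (f n : ℝ) / g n) '' (Set.Iio (2 ^ 100))) :=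
      (Set.Finite.image _ (Set.finite_Iio _)).bddAbove
    obtain ⟨C₀, hC₀⟩ := hbdd
    refine ⟨C₀, fun n h1 h2 => ?_⟩
    have := hC₀ (Set.mem_image_of_mem _ (Set.mem_Iio.2 h2))
    rwa [div_le_iff₀ (hgpos n h1)] at this
  refine ⟨max C₀ 60, fun n hn => ?_⟩
  rw [mul_assoc]
  have e : ((n : ℝ) * Real.sqrt n) * (2 : ℝ) ^ (-(Real.sqrt (Real.logb 2 n) / 20)) = g n := by
    rw [hg]
  rw [e]
  rcases lt_or_ge n (2 ^ 100) with h | h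
  · refine (hC₀ n hn h).trans ?_
    exact mul_le_mul_of_nonneg_right (le_max_left _ _) (hg0 n)
  · refine (large f hf n h).trans ?_
    rw [mul_assoc, e]
    exact mul_le_mul_of_nonneg_right (le_max_right _ _) (hg0 n)

end Pool.Agent.W60.DL
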